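import Pool.Agent.NH24.SQ.C

/-!
# Double zeta values `ζ(k - q, q)` with small `q`: the theorem
-/

set_option autoImplicit false

namespace Pool.Agent.NH24.SQ

open Finset Filter Pool.Agent.NH24.DZ

lemma log_lcm (x : ℕ) : Real.log (Nat.lcmUpto x) ≤ 6 * x := by
  rw [← Chebyshev.psi_eq_log_lcmUpto]
  refine (Chebyshev.psi_le_const_mul_self (Nat.cast_nonneg x)).trans ?_
  refine mul_le_mul_of_nonneg_right ?_ (Nat.cast_nonneg x)
  rw [show (4 : ℝ) = 2 ^ 2 by norm_num, Real.log_pow]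
  have := Real.log_two_lt_d9
  push_cast
  linarith

/-- the case `c_Q ≠ 0` -/
theorem main_aux : ∃ C : ℝ, 1 ≤ C ∧ ∀ (k Q : ℕ) (h : ℝ), 1 ≤ Q → 1 ≤ h → C * Q * h ≤ k →
    ∀ (c : ℕ → ℤ) (d : ℤ), c Q ≠ 0 → (∀ q ∈ Icc 1 Q, |(c q : ℝ)| ≤ (2 : ℝ) ^ h) →
    |(d : ℝ)| ≤ (2 : ℝ) ^ h →
    Q + 3 ≤ k ∧ 1 / (C * min (Q : ℝ) √h) ^ k ≤ |FF Q c d k| := by
  obtain ⟨C2, hC2, hex⟩ := exists_ne
  obtain ⟨C3, hC3⟩ : ∃ C3, C3 = C2 + 1 := ⟨_, rfl⟩
  have hC31 : 1 ≤ C3 := by linarith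
  refine ⟨24 + 20 * C3 ^ 2, by nlinarith [sq_nonneg C3], fun k Q h hQ hh hk c d hcQ hcH hdH => ?_⟩
  have hQr : (1 : ℝ) ≤ Q := by exact_mod_cast hQ
  have hsq1 : 1 ≤ √h := Real.one_le_sqrt.2 hh
  have hsq : √h * √h = h := Real.mul_self_sqrt (by linarith)
  have hQh : (Q : ℝ) ≤ Q * h := le_mul_of_one_le_right (by linarith) hh
  have hC3sq : 0 ≤ C3 ^ 2 := sq_nonneg C3
  have hQh1 : (1 : ℝ) ≤ Q * h := by linarith
  have hk24 : 24 * ((Q : ℝ) * h) + 20 * C3 ^ 2 * ((Q : ℝ) * h) ≤ (k : ℝ) := by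
    refine le_trans (le_of_eq ?_) hk
    ring
  have hpos2 : 0 ≤ 20 * C3 ^ 2 * ((Q : ℝ) * h) := by positivity
  have hkQ : Q + 3 ≤ k := by
    have h1 : (Q : ℝ) + 3 ≤ k := by linarith
    exact_mod_cast h1
  refine ⟨hkQ, ?_⟩
  obtain ⟨M, hM⟩ : ∃ M, M = min (4 * Q) ⌈C2 * √h⌉₊ := ⟨_, rfl⟩
  have hM1 : 4 * Q ≤ M ∨ C2 * √h ≤ M := by
    rw [hM]
    rcases le_total (4 * Q) ⌈C2 * √h⌉₊ with h1 | h1
    · left
      rw [min_eq_left h1]
    · right
      rw [min_eq_right h1]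
      exact Nat.le_ceil _
  have hM2 : (M : ℝ) ≤ 4 * Q := by
    have : M ≤ 4 * Q := by rw [hM]; exact min_le_left _ _
    exact_mod_cast this
  have hM3 : (M : ℝ) ≤ C3 * √h := by
    have h1 : M ≤ ⌈C2 * √h⌉₊ := by rw [hM]; exact min_le_right _ _
    have h2 : (⌈C2 * √h⌉₊ : ℝ) < C2 * √h + 1 := Nat.ceil_lt_add_one (by positivity)
    have h3 : (M : ℝ) ≤ ⌈C2 * √h⌉₊ := by exact_mod_cast h1
    rw [hC3]
    nlinarith
  have hex1 := hex Q c d h M hQ hcQ hh (hcH Q (mem_Icc.2 ⟨hQ, le_rfl⟩)) hM1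
  obtain ⟨hx1, hxM, hxA⟩ := Nat.find_spec hex1
  have hmin : ∀ y, 1 ≤ y → y < Nat.find hex1 → A Q c d y = 0 := by
    intro y hy1 hy2
    by_contra hcon
    exact Nat.find_min hex1 hy2 ⟨hy1, by omega, hcon⟩
  obtain ⟨x, hx⟩ : ∃ x, x = Nat.find hex1 := ⟨_, rfl⟩
  rw [← hx] at hx1 hxM hxA hmin
  have hx0 : (1 : ℝ) ≤ x := by exact_mod_cast hx1
  have hxM' : (x : ℝ) ≤ M := by exact_mod_cast hxM
  have hx4 : (x : ℝ) ≤ 4 * Q := hxM'.trans hM2
  have hx3 : (x : ℝ) ≤ C3 * √h := hxM'.trans hM3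
  have hD : (0 : ℝ) < Nat.lcmUpto x := by exact_mod_cast Nat.lcmUpto_pos x
  have hlD := log_lcm x
  have hlog4 : Real.log 4 = 2 * Real.log 2 := by
    rw [show (4 : ℝ) = 2 ^ 2 by norm_num, Real.log_pow]
    norm_num
  have hl2 := Real.log_two_lt_d9
  have hl2' : 0 < Real.log 2 := Real.log_pos (by norm_num)
  -- the numerical inequality
  have hQx2 : (Q : ℝ) * x * x ≤ C3 ^ 2 * (Q * h) := by
    have h1 : (x : ℝ) * x ≤ (C3 * √h) * (C3 * √h) := mul_le_mul hx3 hx3 (by linarith) (by positivity)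
    have h2 : (C3 * √h) * (C3 * √h) = C3 ^ 2 * h := by
      calc (C3 * √h) * (C3 * √h) = C3 ^ 2 * (√h * √h) := by ring
        _ = _ := by rw [hsq]
    rw [h2] at h1
    calc (Q : ℝ) * x * x = Q * (x * x) := by ring
      _ ≤ Q * (C3 ^ 2 * h) := mul_le_mul_of_nonneg_left h1 (by linarith)
      _ = _ := by ring
  have hxh : (x : ℝ) * h ≤ 4 * (Q * h) := by
    calc (x : ℝ) * h ≤ 4 * Q * h := mul_le_mul_of_nonneg_right hx4 (by linarith)
      _ = _ := by ring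
  have hnum : 4 * (2 : ℝ) ^ h * ((Nat.lcmUpto x : ℝ) ^ Q * (x : ℝ) ^ k) ≤
      ((x : ℝ) + 1) ^ (k - Q - 3) := by
    have hxp : (0 : ℝ) < x := by linarith
    rw [← Real.log_le_log_iff (by positivity) (by positivity), Real.log_mul (by positivity)
      (by positivity), Real.log_mul (by norm_num) (by positivity), Real.log_mul (by positivity)
      (by positivity), Real.log_pow, Real.log_pow, Real.log_pow, Real.log_rpow (by norm_num), hlog4]
    have h1 : ((k - Q - 3 : ℕ) : ℝ) = (k : ℝ) - (Q + 3) := by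
      rw [Nat.sub_sub, Nat.cast_sub hkQ]
      push_cast
      ring
    rw [h1]
    have h2 : Real.log ((x : ℝ) + 1) ≤ x := by
      have := Real.log_le_sub_one_of_pos (show (0 : ℝ) < x + 1 by linarith)
      linarith
    have h2' : 0 ≤ Real.log ((x : ℝ) + 1) := Real.log_nonneg (by linarith)
    have h3 : 1 / (2 * (x : ℝ)) ≤ Real.log ((x : ℝ) + 1) - Real.log x := by
      rw [← Real.log_div (by linarith) (by linarith)]
      have h4 := Real.one_sub_inv_le_log_of_pos (show (0 : ℝ) < (x + 1) / x by positivity)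
      refine le_trans ?_ h4
      rw [inv_div]
      have h5 : 1 - (x : ℝ) / (x + 1) = 1 / (x + 1) := by field_simp; ring
      rw [h5]
      exact one_div_le_one_div_of_le (by linarith) (by linarith)
    have h4 : (k : ℝ) / (2 * x) ≤ k * (Real.log ((x : ℝ) + 1) - Real.log x) := by
      calc (k : ℝ) / (2 * x) = k * (1 / (2 * x)) := by ring
        _ ≤ _ := mul_le_mul_of_nonneg_left h3 (Nat.cast_nonneg k)
    have h5 : ((Q : ℝ) + 3) * Real.log ((x : ℝ) + 1) ≤ 4 * (Q * x) := by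
      calc ((Q : ℝ) + 3) * Real.log ((x : ℝ) + 1) ≤ (4 * Q) * x :=
            mul_le_mul (by linarith) h2 h2' (by linarith)
        _ = _ := by ring
    have h6 : (Q : ℝ) * Real.log (Nat.lcmUpto x) ≤ 6 * (Q * x) := by
      calc (Q : ℝ) * Real.log (Nat.lcmUpto x) ≤ Q * (6 * x) :=
            mul_le_mul_of_nonneg_left hlD (by linarith)
        _ = _ := by ring
    have h7 : 3 * h + 10 * (Q * x) ≤ (k : ℝ) / (2 * x) := by
      rw [le_div_iff₀ (by linarith)]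
      calc (3 * h + 10 * (Q * x)) * (2 * x) = 6 * (x * h) + 20 * (Q * x * x) := by ring
        _ ≤ 6 * (4 * (Q * h)) + 20 * (C3 ^ 2 * (Q * h)) := by linarith
        _ ≤ k := by linarith
    have h8 : h * Real.log 2 ≤ h := by
      have : h * Real.log 2 ≤ h * 1 := mul_le_mul_of_nonneg_left (by linarith) (by linarith)
      linarith
    have h9 : (k : ℝ) * (Real.log ((x : ℝ) + 1) - Real.log x) =
      k * Real.log ((x : ℝ) + 1) - k * Real.log x := by ring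
    have h10 : ((k : ℝ) - (Q + 3)) * Real.log ((x : ℝ) + 1) =
      k * Real.log ((x : ℝ) + 1) - (Q + 3) * Real.log ((x : ℝ) + 1) := by ring
    rw [h10]
    linarith
  have hmain := main_low hcH hdH hkQ hx1 hmin hxA hnum
  refine le_trans ?_ hmain
  refine one_div_le_one_div_of_le (by positivity) ?_
  -- the bound
  obtain ⟨μ, hμ⟩ : ∃ μ, μ = min (Q : ℝ) √h := ⟨_, rfl⟩
  rw [← hμ]
  have hμ1 : 1 ≤ μ := by
    rw [hμ]
    exact le_min hQr hsq1
  have hxμ : (x : ℝ) ≤ (4 + C3) * μ := by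
    rcases le_total (Q : ℝ) √h with h1 | h1
    · have h2 : μ = Q := by rw [hμ]; exact min_eq_left h1
      rw [h2]
      nlinarith
    · have h2 : μ = √h := by rw [hμ]; exact min_eq_right h1
      rw [h2]
      nlinarith
  have hDQ : (Nat.lcmUpto x : ℝ) ^ Q ≤ 3 ^ k := by
    have hl3 : 1 ≤ Real.log 3 := by
      rw [← Real.log_exp 1]
      exact Real.log_le_log (Real.exp_pos 1) (by linarith [Real.exp_one_lt_d9])
    rw [← Real.log_le_log_iff (by positivity) (by positivity), Real.log_pow, Real.log_pow]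
    have h1 : (Q : ℝ) * Real.log (Nat.lcmUpto x) ≤ Q * (6 * x) :=
      mul_le_mul_of_nonneg_left hlD (by linarith)
    have h2 : (Q : ℝ) * x ≤ C3 * (Q * h) := by
      have h3 : √h ≤ h := by nlinarith
      calc (Q : ℝ) * x ≤ Q * (C3 * √h) := mul_le_mul_of_nonneg_left hx3 (by linarith)
        _ = C3 * (Q * √h) := by ring
        _ ≤ C3 * (Q * h) := by gcongr
    have h3 : 6 * (C3 * (Q * h)) ≤ 20 * C3 ^ 2 * ((Q : ℝ) * h) := by
      have h4 : C3 ≤ C3 ^ 2 := by nlinarith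
      have h5 : C3 * (Q * h) ≤ C3 ^ 2 * (Q * h) := mul_le_mul_of_nonneg_right h4 (by linarith)
      have h6 : 0 ≤ C3 ^ 2 * ((Q : ℝ) * h) := by positivity
      linarith
    have h4 : (k : ℝ) ≤ k * Real.log 3 := le_mul_of_one_le_right (Nat.cast_nonneg k) hl3
    linarith
  have h2k : (2 : ℝ) ≤ 2 ^ k := by
    calc (2 : ℝ) = 2 ^ 1 := by norm_num
      _ ≤ 2 ^ k := pow_le_pow_right₀ (by norm_num) (by omega)
  calc 2 * ((Nat.lcmUpto x : ℝ) ^ Q * (x : ℝ) ^ k) ≤ 2 ^ k * (3 ^ k * ((4 + C3) * μ) ^ k) := by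
        gcongr
    _ = (6 * (4 + C3) * μ) ^ k := by
        rw [← mul_pow, ← mul_pow]
        congr 1
        ring
    _ ≤ ((24 + 20 * C3 ^ 2) * μ) ^ k := by
        refine pow_le_pow_left₀ (by positivity) ?_ k
        refine mul_le_mul_of_nonneg_right ?_ (by linarith)
        nlinarith

/-- **the theorem** -/
theorem main : ∃ C : ℝ, 1 ≤ C ∧ ∀ (k Q : ℕ) (h : ℝ), 1 ≤ h → C * Q * h ≤ k →
    ∀ (c : ℕ → ℤ) (d : ℤ), (∃ q ∈ Icc 1 Q, c q ≠ 0) → (∀ q ∈ Icc 1 Q, |(c q : ℝ)| ≤ (2 : ℝ) ^ h) →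
    |(d : ℝ)| ≤ (2 : ℝ) ^ h →
    1 / (C * min (Q : ℝ) √h) ^ k ≤ |∑ q ∈ Icc 1 Q, (c q : ℝ) * dz (k - q) q +
      (d : ℝ) * ∑' m : ℕ, 1 / ((m + 1 : ℕ) : ℝ) ^ k| := by
  classical
  obtain ⟨C, hC, hmain⟩ := main_aux
  refine ⟨C, hC, fun k Q h hh hk c d hc hcH hdH => ?_⟩
  obtain ⟨q, hq, hq0, hqmax⟩ := exists_last hc
  rw [mem_Icc] at hq
  have hqQ : (q : ℝ) ≤ Q := by exact_mod_cast hq.2
  have hq1 : (1 : ℝ) ≤ q := by exact_mod_cast hq.1
  obtain ⟨h1, h2⟩ := hmain k q h hq.1 hh (by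
    refine le_trans ?_ hk
    gcongr) c d hq0 (fun p hp => hcH p (by
      rw [mem_Icc] at hp ⊢
      omega)) hdH
  rw [FF_eq q c d h1] at h2
  have h3 : ∑ q ∈ Icc 1 Q, (c q : ℝ) * dz (k - q) q = ∑ q ∈ Icc 1 q, (c q : ℝ) * dz (k - q) q := by
    symm
    refine Finset.sum_subset (Icc_subset_Icc_right hq.2) fun p hp hp2 => ?_
    rw [hqmax p hp (by
      rw [mem_Icc] at hp hp2
      omega), Int.cast_zero, zero_mul]
  rw [h3]
  refine le_trans ?_ h2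
  have hsq1 : 1 ≤ √h := Real.one_le_sqrt.2 hh
  have h4 : 0 < min (q : ℝ) √h := lt_min (by linarith) (by linarith)
  refine one_div_le_one_div_of_le (by positivity) ?_
  refine pow_le_pow_left₀ (by positivity) ?_ k
  exact mul_le_mul_of_nonneg_left (min_le_min_right _ hqQ) (by linarith)

end Pool.Agent.NH24.SQ
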