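import Pool.Agent.NH24.SQ.B

/-!
# Double zeta values `ζ(k - q, q)` with small `q`: a coefficient that does not vanish
-/

set_option autoImplicit false

namespace Pool.Agent.NH24.SQ

open Finset Filter Pool.Agent.NH24.DZ

/-- the product of the primes in `(z, y]` -/
def PR (z y : ℕ) : ℕ := ∏ p ∈ (Ioc z y).filter Nat.Prime, p

lemma PR_mul {z y : ℕ} (h : z ≤ y) : primorial z * PR z y = primorial y := by
  unfold primorial PR
  rw [← prod_union]
  · refine prod_congr ?_ fun _ _ => rfl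
    ext p
    simp only [mem_union, mem_filter, mem_range, mem_Ioc]
    constructor
    · rintro (⟨h1, h2⟩ | ⟨h1, h2⟩)
      · exact ⟨by omega, h2⟩
      · exact ⟨by omega, h2⟩
    · rintro ⟨h1, h2⟩
      by_cases h3 : p < z + 1
      · exact Or.inl ⟨h3, h2⟩
      · exact Or.inr ⟨by omega, h2⟩
  · rw [disjoint_left]
    intro p hp
    simp only [mem_filter, mem_range, mem_Ioc] at hp ⊢
    omega

lemma PR_dvd {z y s : ℕ} {c : ℤ} (h : ∀ l : ℕ, l.Prime → z < l → l ≤ y → (l : ℤ) ^ s ∣ c) :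
    PR z y ^ s ∣ c.natAbs := by
  unfold PR
  rw [← prod_pow]
  refine Finset.prod_dvd_of_isRelPrime ?_ ?_
  · intro p hp q hq hpq
    rw [mem_coe, mem_filter] at hp hq
    rw [Function.onFun, ← Nat.coprime_iff_isRelPrime]
    exact Nat.Coprime.pow _ _ ((Nat.coprime_primes hp.2 hq.2).2 hpq)
  · intro p hp
    rw [mem_filter, mem_Ioc] at hp
    have h1 := h p hp.2 hp.1.1 hp.1.2
    rw [← Int.natCast_dvd]
    push_cast
    exact h1

lemma ev_PR : ∀ᶠ y : ℕ in atTop, (2 : ℝ) ^ ((y : ℝ) / 4) ≤ PR (y / 8) y := by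
  filter_upwards [ev_primorial] with y hy
  have h1 := PR_mul (Nat.div_le_self y 8)
  have h2 := primorial_le_four_pow (y / 8)
  have h3 : (primorial (y / 8) : ℝ) ≤ (2 : ℝ) ^ ((y : ℝ) / 4) := by
    calc (primorial (y / 8) : ℝ) ≤ ((4 ^ (y / 8) : ℕ) : ℝ) := by exact_mod_cast h2
      _ = (2 : ℝ) ^ (2 * ((y / 8 : ℕ) : ℝ)) := by
          rw [Real.rpow_mul (by norm_num)]
          norm_num
      _ ≤ (2 : ℝ) ^ ((y : ℝ) / 4) := by
          refine Real.rpow_le_rpow_of_exponent_le (by norm_num) ?_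
          have h4 : ((y / 8 : ℕ) : ℝ) ≤ (y : ℝ) / 8 := by
            have := Nat.cast_div_le (α := ℝ) (m := y) (n := 8)
            exact_mod_cast this
          linarith
  have h4 : (primorial (y / 8) : ℝ) * PR (y / 8) y = primorial y := by exact_mod_cast h1
  have h5 : (2 : ℝ) ^ ((y : ℝ) / 2) = (2 : ℝ) ^ ((y : ℝ) / 4) * (2 : ℝ) ^ ((y : ℝ) / 4) := by
    rw [← Real.rpow_add (by norm_num)]
    congr 1
    ring
  have h6 : (0 : ℝ) < (2 : ℝ) ^ ((y : ℝ) / 4) := by positivity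
  have h7 : (2 : ℝ) ^ ((y : ℝ) / 4) * (2 : ℝ) ^ ((y : ℝ) / 4) ≤ (2 : ℝ) ^ ((y : ℝ) / 4) * PR (y / 8) y := by
    calc (2 : ℝ) ^ ((y : ℝ) / 4) * (2 : ℝ) ^ ((y : ℝ) / 4) ≤ primorial y := by rw [← h5]; exact hy
      _ = (primorial (y / 8) : ℝ) * PR (y / 8) y := h4.symm
      _ ≤ _ := mul_le_mul_of_nonneg_right h3 (Nat.cast_nonneg _)
  exact le_of_mul_le_mul_left h7 h6

lemma A_one (Q : ℕ) (c : ℕ → ℤ) (d : ℤ) : A Q c d 1 = d := by
  unfold A hs
  simp

theorem exists_ne : ∃ C : ℝ, 1 ≤ C ∧ ∀ (Q : ℕ) (c : ℕ → ℤ) (d : ℤ) (h : ℝ) (M : ℕ), 1 ≤ Q → c Q ≠ 0 →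
    1 ≤ h → |(c Q : ℝ)| ≤ (2 : ℝ) ^ h → (4 * Q ≤ M ∨ C * √h ≤ M) →
    ∃ x, 1 ≤ x ∧ x ≤ M ∧ A Q c d x ≠ 0 := by
  obtain ⟨y0, hy0⟩ := eventually_atTop.1 ev_PR
  refine ⟨3 * y0 + 48, by
    have : (0 : ℝ) ≤ y0 := Nat.cast_nonneg y0
    linarith, fun Q c d h M hQ hcQ hh hcH hM => ?_⟩
  have hy00 : (0 : ℝ) ≤ y0 := Nat.cast_nonneg y0
  by_contra hcon
  push Not at hcon
  have hsq1 : 1 ≤ √h := Real.one_le_sqrt.2 hh
  have hM1 : 1 ≤ M := by
    rcases hM with h1 | h1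
    · omega
    · by_contra h2
      have h3 : M = 0 := by omega
      subst h3
      rw [Nat.cast_zero] at h1
      nlinarith
  have hd : d = 0 := by
    have h1 := hcon 1 le_rfl hM1
    rw [A_one] at h1
    exact_mod_cast h1
  subst hd
  rcases hM with h1 | h1
  · obtain ⟨l, hl, hl1, hl2⟩ := Nat.exists_prime_lt_and_le_two_mul Q (by omega)
    exact hcQ (all_zero hl hl1 (fun m hm1 hm2 => hcon m (by omega) (by omega)) Q
      (mem_Icc.2 ⟨hQ, le_rfl⟩))
  · obtain ⟨y, hy⟩ : ∃ y, y = M / 2 := ⟨_, rfl⟩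
    have hMr : (48 : ℝ) ≤ M := by nlinarith
    have hM48 : 48 ≤ M := by exact_mod_cast hMr
    have hyM : M ≤ 3 * y := by omega
    have hyMr : (M : ℝ) ≤ 3 * y := by exact_mod_cast hyM
    have hy1 : (y0 : ℝ) + 16 * √h ≤ y := by nlinarith
    have hyy0 : y0 ≤ y := by
      have h2 : (y0 : ℝ) ≤ y := by linarith
      exact_mod_cast h2
    have hPR := hy0 y hyy0
    obtain ⟨z, hz⟩ : ∃ z, z = y / 8 := ⟨_, rfl⟩
    rw [← hz] at hPR
    have hy16 : 16 ≤ y := by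
      have h2 : (16 : ℝ) ≤ y := by linarith
      exact_mod_cast h2
    have hz1 : 1 ≤ z := by omega
    have hz16 : y ≤ 16 * z := by omega
    have hv : ∀ l, l ≤ y → ∀ m, l < m → m < 2 * l → A Q c 0 m = 0 := fun l hl m hm1 hm2 =>
      hcon m (by omega) (by omega)
    rcases lt_or_ge Q z with h2 | h2
    · have h3 : ∃ l, l.Prime ∧ z < l ∧ l ≤ y := by
        by_contra h4
        push Not at h4
        have h5 : PR z y = 1 := by
          unfold PR
          rw [filter_false_of_mem, prod_empty]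
          intro l hl hlp
          rw [mem_Ioc] at hl
          have := h4 l hlp hl.1
          omega
        rw [h5, Nat.cast_one] at hPR
        have h6 : (1 : ℝ) < (2 : ℝ) ^ ((y : ℝ) / 4) :=
          Real.one_lt_rpow (by norm_num) (by
            have : (0 : ℝ) < y := by exact_mod_cast (by omega : 0 < y)
            linarith)
        linarith
      obtain ⟨l, hl, hl1, hl2⟩ := h3
      exact hcQ (all_zero hl (by omega) (hv l hl2) Q (mem_Icc.2 ⟨hQ, le_rfl⟩))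
    · have h3 : PR z y ^ z ∣ (c Q).natAbs := PR_dvd fun l hl hl1 hl2 =>
        last_dvd hl hl1 hz1 h2 (hv l hl2)
      have h4 := Nat.le_of_dvd (Int.natAbs_pos.2 hcQ) h3
      have h5 : ((2 : ℝ) ^ ((y : ℝ) / 4)) ^ z ≤ (2 : ℝ) ^ h := by
        calc ((2 : ℝ) ^ ((y : ℝ) / 4)) ^ z ≤ (PR z y : ℝ) ^ z := pow_le_pow_left₀ (by positivity) hPR z
          _ = ((PR z y ^ z : ℕ) : ℝ) := by push_cast; rfl
          _ ≤ ((c Q).natAbs : ℝ) := by exact_mod_cast h4
          _ = |(c Q : ℝ)| := by rw [Nat.cast_natAbs, Int.cast_abs]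
          _ ≤ _ := hcH
      rw [← Real.rpow_natCast, ← Real.rpow_mul (by norm_num), Real.rpow_le_rpow_left_iff (by norm_num)]
        at h5
      have h6 : (y : ℝ) ≤ 16 * z := by exact_mod_cast hz16
      have h7 : √h * √h = h := Real.mul_self_sqrt (by linarith)
      have h8 : 16 * √h ≤ y := by linarith
      nlinarith

end Pool.Agent.NH24.SQ
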