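import Pool.Agent.NH24.DZ.C

/-!
# Double zeta values `ζ(k - q, q)` with small `q`: the core inequality
-/

set_option autoImplicit false

namespace Pool.Agent.NH24.SQ

open Finset Pool.Agent.NH24.DZ

/-- the sum of `n ^ (-q)` over `1 ≤ n < m` -/
noncomputable def hs (q m : ℕ) : ℝ := ∑ n ∈ Ico 1 m, 1 / (n : ℝ) ^ q

/-- the coefficient of `m ^ (-k)` -/
noncomputable def A (Q : ℕ) (c : ℕ → ℤ) (d : ℤ) (m : ℕ) : ℝ :=
  ∑ q ∈ Icc 1 Q, (c q : ℝ) * ((m : ℝ) ^ q * hs q m) + d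

lemma hs_nonneg (q m : ℕ) : 0 ≤ hs q m := by
  unfold hs
  positivity

lemma hs_le (q : ℕ) {m : ℕ} (hm : 1 ≤ m) : hs q m ≤ (m : ℝ) - 1 := by
  unfold hs
  calc ∑ n ∈ Ico 1 m, 1 / (n : ℝ) ^ q ≤ ∑ n ∈ Ico 1 m, (1 : ℝ) := by
        refine sum_le_sum fun n hn => ?_
        rw [mem_Ico] at hn
        have hn1 : (1 : ℝ) ≤ n := by exact_mod_cast hn.1
        exact div_le_one_of_le₀ (one_le_pow₀ hn1) (by positivity)
    _ = (m : ℝ) - 1 := by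
        rw [sum_const, nsmul_eq_mul, Nat.card_Ico, mul_one, Nat.cast_sub hm, Nat.cast_one]

lemma geo (x : ℝ) (Q : ℕ) : ∑ q ∈ Icc 1 Q, x ^ q * (x - 1) = x ^ (Q + 1) - x := by
  induction Q with
  | zero => simp
  | succ Q ih =>
    rw [sum_Icc_succ_top (by omega), ih]
    ring

lemma A_le {Q : ℕ} {c : ℕ → ℤ} {d : ℤ} {H : ℝ} (hc : ∀ q ∈ Icc 1 Q, |(c q : ℝ)| ≤ H)
    (hd : |(d : ℝ)| ≤ H) {m : ℕ} (hm : 1 ≤ m) : |A Q c d m| ≤ H * (m : ℝ) ^ (Q + 1) := by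
  have hm1 : (1 : ℝ) ≤ m := by exact_mod_cast hm
  have hH : 0 ≤ H := (abs_nonneg _).trans hd
  unfold A
  have h1 : |∑ q ∈ Icc 1 Q, (c q : ℝ) * ((m : ℝ) ^ q * hs q m)| ≤ H * ((m : ℝ) ^ (Q + 1) - m) := by
    refine (abs_sum_le_sum_abs _ _).trans ?_
    rw [← geo, mul_sum]
    refine sum_le_sum fun q hq => ?_
    rw [abs_mul, abs_of_nonneg (mul_nonneg (by positivity) (hs_nonneg q m))]
    exact mul_le_mul (hc q hq) (mul_le_mul_of_nonneg_left (hs_le q hm) (by positivity))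
      (mul_nonneg (by positivity) (hs_nonneg q m)) hH
  have h2 := abs_add_le (∑ q ∈ Icc 1 Q, (c q : ℝ) * ((m : ℝ) ^ q * hs q m)) (d : ℝ)
  nlinarith

lemma dvd_lcmUpto {m n : ℕ} (h1 : 1 ≤ n) (h2 : n ≤ m) : n ∣ Nat.lcmUpto m := by
  unfold Nat.lcmUpto
  exact Finset.dvd_lcm (f := id) (mem_Icc.2 ⟨h1, h2⟩)

lemma A_int (Q : ℕ) (c : ℕ → ℤ) (d : ℤ) (m : ℕ) :
    ∃ z : ℤ, A Q c d m * (Nat.lcmUpto m : ℝ) ^ Q = z := by
  have h1 : ∀ q ∈ Icc 1 Q, ∃ z : ℤ, hs q m * (Nat.lcmUpto m : ℝ) ^ Q = z := by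
    intro q hq
    rw [mem_Icc] at hq
    have h2 : ∀ n ∈ Ico 1 m, ∃ z : ℤ, 1 / (n : ℝ) ^ q * (Nat.lcmUpto m : ℝ) ^ Q = z := by
      intro n hn
      rw [mem_Ico] at hn
      obtain ⟨w, hw⟩ := dvd_lcmUpto hn.1 hn.2.le
      have hn0 : (n : ℝ) ≠ 0 := by
        have : (0 : ℝ) < n := by exact_mod_cast hn.1
        exact this.ne'
      refine ⟨(n ^ (Q - q) * w ^ Q : ℕ), ?_⟩
      rw [hw]
      obtain ⟨e, rfl⟩ := Nat.exists_eq_add_of_le hq.2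
      rw [Nat.add_sub_cancel_left]
      push_cast
      rw [mul_pow, pow_add]
      field_simp
    choose! z hz using h2
    refine ⟨∑ n ∈ Ico 1 m, z n, ?_⟩
    unfold hs
    rw [sum_mul]
    push_cast
    exact sum_congr rfl hz
  choose! z hz using h1
  refine ⟨∑ q ∈ Icc 1 Q, c q * ((m : ℤ) ^ q * z q) + d * (Nat.lcmUpto m : ℤ) ^ Q, ?_⟩
  unfold A
  rw [add_mul, sum_mul]
  push_cast
  congr 1
  refine sum_congr rfl fun q hq => ?_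
  rw [← hz q hq]
  ring

lemma A_low {Q : ℕ} {c : ℕ → ℤ} {d : ℤ} {m : ℕ} (h : A Q c d m ≠ 0) :
    1 / (Nat.lcmUpto m : ℝ) ^ Q ≤ |A Q c d m| := by
  obtain ⟨z, hz⟩ := A_int Q c d m
  have hx0 : (0 : ℝ) < (Nat.lcmUpto m : ℝ) ^ Q := by
    have : (0 : ℝ) < Nat.lcmUpto m := by exact_mod_cast Nat.lcmUpto_pos m
    positivity
  have hz0 : z ≠ 0 := by
    rintro rfl
    rw [Int.cast_zero, mul_eq_zero] at hz
    exact hz.elim h hx0.ne'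
  have h1 : (1 : ℝ) ≤ |(z : ℝ)| := by
    rw [← Int.cast_abs]
    exact_mod_cast Int.one_le_abs hz0
  rw [← hz, abs_mul, abs_of_pos hx0] at h1
  rw [div_le_iff₀ hx0]
  exact h1

/-- the term -/
noncomputable def f (Q : ℕ) (c : ℕ → ℤ) (d : ℤ) (k m : ℕ) : ℝ := A Q c d (m + 1) / ((m + 1 : ℕ) : ℝ) ^ k

lemma f_le {Q : ℕ} {c : ℕ → ℤ} {d : ℤ} {H : ℝ} (hc : ∀ q ∈ Icc 1 Q, |(c q : ℝ)| ≤ H)
    (hd : |(d : ℝ)| ≤ H) {k : ℕ} (hk : Q + 3 ≤ k) (x i : ℕ) :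
    |f Q c d k (i + x)| ≤ H / ((x : ℝ) + 1) ^ (k - Q - 3) * (1 / ((i + 1 : ℕ) : ℝ) ^ 2) := by
  have hH : 0 ≤ H := (abs_nonneg _).trans hd
  have h1 := A_le hc hd (show 1 ≤ i + x + 1 by omega)
  have hm0 : (0 : ℝ) < ((i + x + 1 : ℕ) : ℝ) := by positivity
  unfold f
  rw [abs_div, abs_of_pos (pow_pos hm0 k), div_le_iff₀ (pow_pos hm0 k)]
  refine h1.trans ?_
  obtain ⟨e, rfl⟩ : ∃ e, k = Q + 3 + e := ⟨k - (Q + 3), by omega⟩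
  have h2 : Q + 3 + e - Q - 3 = e := by omega
  rw [h2]
  have h3 : ((x : ℝ) + 1) ^ e ≤ ((i + x + 1 : ℕ) : ℝ) ^ e := by
    refine pow_le_pow_left₀ (by positivity) ?_ _
    push_cast
    have : (0 : ℝ) ≤ i := Nat.cast_nonneg i
    linarith
  have h4 : ((i + 1 : ℕ) : ℝ) ^ 2 ≤ ((i + x + 1 : ℕ) : ℝ) ^ 2 := by
    refine pow_le_pow_left₀ (by positivity) ?_ _
    push_cast
    have : (0 : ℝ) ≤ x := Nat.cast_nonneg x
    linarith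
  have h5 : ((i + x + 1 : ℕ) : ℝ) ^ (Q + 1) * (((x : ℝ) + 1) ^ e * ((i + 1 : ℕ) : ℝ) ^ 2) ≤
      ((i + x + 1 : ℕ) : ℝ) ^ (Q + 3 + e) := by
    calc ((i + x + 1 : ℕ) : ℝ) ^ (Q + 1) * (((x : ℝ) + 1) ^ e * ((i + 1 : ℕ) : ℝ) ^ 2)
        ≤ ((i + x + 1 : ℕ) : ℝ) ^ (Q + 1) * (((i + x + 1 : ℕ) : ℝ) ^ e * ((i + x + 1 : ℕ) : ℝ) ^ 2) := by
          gcongr
      _ = _ := by
          rw [← pow_add, ← pow_add]
          congr 1
          omega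
  calc H * ((i + x + 1 : ℕ) : ℝ) ^ (Q + 1)
      = H / (((x : ℝ) + 1) ^ e * ((i + 1 : ℕ) : ℝ) ^ 2) *
        (((i + x + 1 : ℕ) : ℝ) ^ (Q + 1) * (((x : ℝ) + 1) ^ e * ((i + 1 : ℕ) : ℝ) ^ 2)) := by
        field_simp
    _ ≤ H / (((x : ℝ) + 1) ^ e * ((i + 1 : ℕ) : ℝ) ^ 2) * ((i + x + 1 : ℕ) : ℝ) ^ (Q + 3 + e) :=
        mul_le_mul_of_nonneg_left h5 (by positivity)
    _ = _ := by
        field_simp

/-- the value -/
noncomputable def FF (Q : ℕ) (c : ℕ → ℤ) (d : ℤ) (k : ℕ) : ℝ := ∑' m : ℕ, f Q c d k m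

lemma main_low {Q : ℕ} {c : ℕ → ℤ} {d : ℤ} {H : ℝ} (hc : ∀ q ∈ Icc 1 Q, |(c q : ℝ)| ≤ H)
    (hd : |(d : ℝ)| ≤ H) {k : ℕ} (hk : Q + 3 ≤ k) {x : ℕ} (hx : 1 ≤ x)
    (h0 : ∀ y, 1 ≤ y → y < x → A Q c d y = 0) (h1 : A Q c d x ≠ 0)
    (hnum : 4 * H * ((Nat.lcmUpto x : ℝ) ^ Q * (x : ℝ) ^ k) ≤ ((x : ℝ) + 1) ^ (k - Q - 3)) :
    1 / (2 * ((Nat.lcmUpto x : ℝ) ^ Q * (x : ℝ) ^ k)) ≤ |FF Q c d k| := by
  have hH : 0 ≤ H := (abs_nonneg _).trans hd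
  have hx0 : (0 : ℝ) < x := by exact_mod_cast hx
  have hD : (0 : ℝ) < Nat.lcmUpto x := by exact_mod_cast Nat.lcmUpto_pos x
  have hs0 : Summable (f Q c d k) := by
    refine Summable.of_norm_bounded (summable_inv_sq.mul_left (H / (((0 : ℕ) : ℝ) + 1) ^ (k - Q - 3)))
      fun m => ?_
    rw [Real.norm_eq_abs]
    exact f_le hc hd hk 0 m
  have hs1 : Summable fun i => f Q c d k (i + x) := (summable_nat_add_iff x).2 hs0
  have h2 : FF Q c d k = f Q c d k (x - 1) + ∑' i : ℕ, f Q c d k (i + x) := by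
    unfold FF
    rw [← hs0.sum_add_tsum_nat_add x]
    congr 1
    rw [Finset.sum_eq_single (x - 1)]
    · intro i hi hne
      rw [mem_range] at hi
      unfold f
      rw [h0 (i + 1) (by omega) (by omega), zero_div]
    · intro h
      exact absurd (mem_range.2 (by omega)) h
  have h3 : |∑' i : ℕ, f Q c d k (i + x)| ≤ H / ((x : ℝ) + 1) ^ (k - Q - 3) * 2 := by
    calc |∑' i : ℕ, f Q c d k (i + x)| ≤ ∑' i : ℕ, |f Q c d k (i + x)| := by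
          have := norm_tsum_le_tsum_norm hs1.norm
          simpa only [Real.norm_eq_abs] using this
      _ ≤ ∑' i : ℕ, H / ((x : ℝ) + 1) ^ (k - Q - 3) * (1 / ((i + 1 : ℕ) : ℝ) ^ 2) :=
          Summable.tsum_le_tsum (fun i => f_le hc hd hk x i) hs1.abs (summable_inv_sq.mul_left _)
      _ = H / ((x : ℝ) + 1) ^ (k - Q - 3) * ∑' i : ℕ, 1 / ((i + 1 : ℕ) : ℝ) ^ 2 := tsum_mul_left
      _ ≤ _ := mul_le_mul_of_nonneg_left sum_inv_sq (by positivity)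
  have h4 : 1 / ((Nat.lcmUpto x : ℝ) ^ Q * (x : ℝ) ^ k) ≤ |f Q c d k (x - 1)| := by
    unfold f
    rw [Nat.sub_add_cancel hx, abs_div, abs_of_pos (pow_pos hx0 k), ← div_div]
    exact div_le_div_of_nonneg_right (A_low h1) (by positivity)
  have h5 : H / ((x : ℝ) + 1) ^ (k - Q - 3) * 2 ≤ 1 / (2 * ((Nat.lcmUpto x : ℝ) ^ Q * (x : ℝ) ^ k)) := by
    rw [div_mul_eq_mul_div, div_le_div_iff₀ (by positivity) (by positivity)]
    linarith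
  have h6 : 1 / ((Nat.lcmUpto x : ℝ) ^ Q * (x : ℝ) ^ k) =
      1 / (2 * ((Nat.lcmUpto x : ℝ) ^ Q * (x : ℝ) ^ k)) +
      1 / (2 * ((Nat.lcmUpto x : ℝ) ^ Q * (x : ℝ) ^ k)) := by
    field_simp
    norm_num
  rw [h2]
  have h7 := abs_sub_abs_le_abs_sub (f Q c d k (x - 1)) (-∑' i : ℕ, f Q c d k (i + x))
  rw [sub_neg_eq_add, abs_neg] at h7
  linarith

/-- the value is the combination of double zeta values -/
lemma FF_eq (Q : ℕ) (c : ℕ → ℤ) (d : ℤ) {k : ℕ} (hk : Q + 3 ≤ k) : FF Q c d k =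
    ∑ q ∈ Icc 1 Q, (c q : ℝ) * dz (k - q) q + (d : ℝ) * ∑' m : ℕ, 1 / ((m + 1 : ℕ) : ℝ) ^ k := by
  have hs : ∀ q ∈ Icc 1 Q, Summable fun m : ℕ =>
      (c q : ℝ) * ((∑ n ∈ Ico 1 (m + 1), 1 / (n : ℝ) ^ q) / ((m + 1 : ℕ) : ℝ) ^ (k - q)) := by
    intro q hq
    rw [mem_Icc] at hq
    refine Summable.mul_left _ ?_
    refine Summable.of_nonneg_of_le (fun m => by positivity) (fun m => ?_) summable_inv_sq
    have h1 := hs_le q (show 1 ≤ m + 1 by omega)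
    unfold SQ.hs at h1
    have hm0 : (0 : ℝ) < ((m + 1 : ℕ) : ℝ) := by positivity
    have hm1 : (1 : ℝ) ≤ ((m + 1 : ℕ) : ℝ) := by
      push_cast
      have : (0 : ℝ) ≤ m := Nat.cast_nonneg m
      linarith
    rw [div_le_div_iff₀ (by positivity) (by positivity), one_mul]
    calc (∑ n ∈ Ico 1 (m + 1), 1 / (n : ℝ) ^ q) * ((m + 1 : ℕ) : ℝ) ^ 2
        ≤ ((m + 1 : ℕ) : ℝ) * ((m + 1 : ℕ) : ℝ) ^ 2 :=
          mul_le_mul_of_nonneg_right (by linarith) (by positivity)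
      _ = ((m + 1 : ℕ) : ℝ) ^ 3 := by ring
      _ ≤ ((m + 1 : ℕ) : ℝ) ^ (k - q) := pow_le_pow_right₀ hm1 (by omega)
  have hs2 : Summable fun m : ℕ => (d : ℝ) * (1 / ((m + 1 : ℕ) : ℝ) ^ k) := by
    refine Summable.mul_left _ ?_
    exact (summable_nat_add_iff 1).2 (Real.summable_one_div_nat_pow.2 (by omega))
  have h1 : ∀ m : ℕ, f Q c d k m =
      ∑ q ∈ Icc 1 Q, (c q : ℝ) * ((∑ n ∈ Ico 1 (m + 1), 1 / (n : ℝ) ^ q) / ((m + 1 : ℕ) : ℝ) ^ (k - q)) +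
        (d : ℝ) * (1 / ((m + 1 : ℕ) : ℝ) ^ k) := by
    intro m
    have hm0 : ((m + 1 : ℕ) : ℝ) ≠ 0 := by positivity
    unfold f A
    rw [add_div, sum_div]
    congr 1
    · refine sum_congr rfl fun q hq => ?_
      rw [mem_Icc] at hq
      obtain ⟨e, rfl⟩ : ∃ e, k = q + e := ⟨k - q, by omega⟩
      rw [Nat.add_sub_cancel_left, pow_add]
      unfold SQ.hs
      field_simp
    · field_simp
  unfold FF dz
  rw [tsum_congr h1, Summable.tsum_add (summable_sum hs) hs2, Summable.tsum_finsetSum hs, tsum_mul_left]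
  congr 1
  exact sum_congr rfl fun p _ => tsum_mul_left

end Pool.Agent.NH24.SQ
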