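import Pool.Agent.NH24.SQ.A

/-!
# Double zeta values `ζ(k - q, q)` with small `q`: divisibility by powers of primes
-/

set_option autoImplicit false

namespace Pool.Agent.NH24.SQ

open Finset Pool.Agent.NH24.DZ

/-- the part of the harmonic sum prime to `l` -/
lemma mod_pow {l m Q : ℕ} (hl : l.Prime) (h1 : l < m) (h2 : m < 2 * l) {c : ℕ → ℤ}
    (h0 : A Q c 0 m = 0) : ((l : ℤ) ^ Q) ∣ ∑ q ∈ Icc 1 Q, c q * (m : ℤ) ^ q * (l : ℤ) ^ (Q - q) := by
  classical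
  obtain ⟨N, hN⟩ : ∃ N, N = ∏ n ∈ (Ico 1 m).erase l, n := ⟨_, rfl⟩
  have hcop : IsCoprime ((l : ℤ) ^ Q) ((N : ℤ) ^ Q) := by
    refine IsCoprime.pow ?_
    rw [Nat.isCoprime_iff_coprime, hN]
    refine Nat.Coprime.prod_right fun n hn => ?_
    rw [mem_erase, mem_Ico] at hn
    rw [hl.coprime_iff_not_dvd]
    rintro ⟨e, rfl⟩
    have he : e ≠ 0 := by
      rintro rfl
      omega
    have he1 : e ≠ 1 := by
      rintro rfl
      omega
    have : 2 ≤ e := by omega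
    nlinarith
  have hl0 : (l : ℝ) ≠ 0 := by exact_mod_cast hl.ne_zero
  have hz : ∀ q ∈ Icc 1 Q, ∃ z : ℤ,
      hs q m * ((N : ℝ) ^ Q * (l : ℝ) ^ Q) = (N : ℝ) ^ Q * (l : ℝ) ^ (Q - q) + (l : ℝ) ^ Q * z := by
    intro q hq
    rw [mem_Icc] at hq
    have h3 : ∀ n ∈ (Ico 1 m).erase l, ∃ z : ℤ, 1 / (n : ℝ) ^ q * (N : ℝ) ^ Q = z := by
      intro n hn
      have hnN : n ∣ N := by
        rw [hN]
        exact dvd_prod_of_mem (fun n => n) hn
      rw [mem_erase, mem_Ico] at hn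
      obtain ⟨w, hw⟩ := hnN
      have hn0 : (n : ℝ) ≠ 0 := by
        have : (0 : ℝ) < n := by exact_mod_cast hn.2.1
        exact this.ne'
      refine ⟨(n ^ (Q - q) * w ^ Q : ℕ), ?_⟩
      rw [hw]
      obtain ⟨e, rfl⟩ := Nat.exists_eq_add_of_le hq.2
      rw [Nat.add_sub_cancel_left]
      push_cast
      rw [mul_pow, pow_add]
      field_simp
    choose! z hz using h3
    refine ⟨∑ n ∈ (Ico 1 m).erase l, z n, ?_⟩
    unfold hs
    rw [← Finset.add_sum_erase (Ico 1 m) _ (mem_Ico.2 ⟨hl.one_le, h1⟩), add_mul]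
    congr 1
    · obtain ⟨e, rfl⟩ := Nat.exists_eq_add_of_le hq.2
      rw [Nat.add_sub_cancel_left]
      rw [pow_add (l : ℝ)]
      field_simp
    · rw [← mul_assoc, sum_mul]
      push_cast
      rw [mul_comm ((l : ℝ) ^ Q), sum_congr rfl hz]
  choose! z hz using hz
  have h3 : (N : ℤ) ^ Q * ∑ q ∈ Icc 1 Q, c q * (m : ℤ) ^ q * (l : ℤ) ^ (Q - q) +
      (l : ℤ) ^ Q * ∑ q ∈ Icc 1 Q, c q * (m : ℤ) ^ q * z q = 0 := by
    have h4 : (((N : ℤ) ^ Q * ∑ q ∈ Icc 1 Q, c q * (m : ℤ) ^ q * (l : ℤ) ^ (Q - q) +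
      (l : ℤ) ^ Q * ∑ q ∈ Icc 1 Q, c q * (m : ℤ) ^ q * z q : ℤ) : ℝ) =
        A Q c 0 m * ((N : ℝ) ^ Q * (l : ℝ) ^ Q) := by
      unfold A
      push_cast
      rw [add_zero, sum_mul, mul_sum, mul_sum, ← sum_add_distrib]
      refine sum_congr rfl fun q hq => ?_
      have h5 := hz q hq
      calc (N : ℝ) ^ Q * ((c q : ℝ) * (m : ℝ) ^ q * (l : ℝ) ^ (Q - q)) +
            (l : ℝ) ^ Q * ((c q : ℝ) * (m : ℝ) ^ q * (z q : ℝ)) =
            (c q : ℝ) * (m : ℝ) ^ q * ((N : ℝ) ^ Q * (l : ℝ) ^ (Q - q) + (l : ℝ) ^ Q * z q) := by ring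
        _ = _ := by
            rw [← h5]
            ring
    rw [h0, zero_mul] at h4
    exact_mod_cast h4
  have h4 : ((l : ℤ) ^ Q) ∣ (N : ℤ) ^ Q * ∑ q ∈ Icc 1 Q, c q * (m : ℤ) ^ q * (l : ℤ) ^ (Q - q) := by
    refine ⟨-∑ q ∈ Icc 1 Q, c q * (m : ℤ) ^ q * z q, ?_⟩
    linarith
  exact hcop.dvd_of_dvd_mul_left h4

/-- a Vandermonde system modulo a power of a prime -/
lemma vander {l s N : ℕ} (hl : l.Prime) (hs : s < l) (a : ℕ) (y : ℕ → ℤ)
    (h : ∀ j < s, (l : ℤ) ^ N ∣ ∑ i ∈ range s, y i * ((a : ℤ) + j) ^ i) :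
    ∀ i < s, (l : ℤ) ^ N ∣ y i := by
  classical
  have hcast : ∀ z : ℤ, ((l : ℤ) ^ N ∣ z) ↔ ((z : ZMod (l ^ N)) = 0) := by
    intro z
    rw [ZMod.intCast_zmod_eq_zero_iff_dvd]
    push_cast
    rfl
  obtain ⟨v, hv⟩ : ∃ v : Fin s → ZMod (l ^ N), ∀ j, v j = ((a + j : ℕ) : ZMod (l ^ N)) :=
    ⟨fun j => ((a + j : ℕ) : ZMod (l ^ N)), fun _ => rfl⟩
  obtain ⟨w, hw⟩ : ∃ w : Fin s → ZMod (l ^ N), ∀ i, w i = ((y i : ℤ) : ZMod (l ^ N)) :=
    ⟨fun i => ((y i : ℤ) : ZMod (l ^ N)), fun _ => rfl⟩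
  have hdet : IsUnit (Matrix.vandermonde v).det := by
    rw [Matrix.det_vandermonde]
    refine (IsUnit.prod_iff).2 fun i _ => (IsUnit.prod_iff).2 fun j hj => ?_
    rw [mem_Ioi] at hj
    have hij : (i : ℕ) < j := hj
    have h1 : v j - v i = (((j : ℕ) - (i : ℕ) : ℕ) : ZMod (l ^ N)) := by
      rw [hv, hv, Nat.cast_sub hij.le]
      push_cast
      ring
    rw [h1, ZMod.isUnit_iff_coprime]
    refine Nat.Coprime.pow_right _ ?_
    rw [Nat.coprime_comm, hl.coprime_iff_not_dvd]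
    intro hd
    have h2 := Nat.le_of_dvd (by omega) hd
    have h3 := j.2
    omega
  have h2 : (Matrix.vandermonde v).mulVec w = 0 := by
    funext j
    have h3 := (hcast _).1 (h j j.2)
    rw [Int.cast_sum, ← Fin.sum_univ_eq_sum_range
      (fun i => ((y i * ((a : ℤ) + ((j : ℕ) : ℤ)) ^ i : ℤ) : ZMod (l ^ N)))] at h3
    rw [Matrix.mulVec, dotProduct, Pi.zero_apply, ← h3]
    refine Finset.sum_congr rfl fun i _ => ?_
    rw [Matrix.vandermonde_apply, hv, hw]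
    push_cast
    ring
  have h3 : w = 0 := by
    have h4 : Function.Injective (Matrix.vandermonde v).mulVec :=
      Matrix.mulVec_injective_of_isUnit ((Matrix.isUnit_iff_isUnit_det _).2 hdet)
    apply h4
    rw [h2, Matrix.mulVec_zero]
  intro i hi
  rw [hcast]
  have h4 := congrFun h3 ⟨i, hi⟩
  rw [hw] at h4
  exact h4

/-- the divisibility of the top coefficients -/
lemma top_dvd {l Q s : ℕ} (hl : l.Prime) (hs : s < l) (hsQ : s ≤ Q) {c : ℕ → ℤ}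
    (h0 : ∀ m, l < m → m < 2 * l → A Q c 0 m = 0) :
    ∀ i < s, (l : ℤ) ^ s ∣ c (Q - s + 1 + i) * (l : ℤ) ^ (s - 1 - i) := by
  refine vander hl hs (l + 1) (fun i => c (Q - s + 1 + i) * (l : ℤ) ^ (s - 1 - i)) fun j hj => ?_
  obtain ⟨m, hm⟩ : ∃ m, m = l + 1 + j := ⟨_, rfl⟩
  have h1 := mod_pow (Q := Q) hl (show l < m by omega) (by omega) (h0 m (by omega) (by omega))
  have hlm : IsCoprime ((l : ℤ) ^ s) ((m : ℤ) ^ (Q - s + 1)) := by
    refine IsCoprime.pow ?_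
    rw [Nat.isCoprime_iff_coprime, hl.coprime_iff_not_dvd]
    rintro ⟨e, he⟩
    have he1 : e ≠ 0 := by
      rintro rfl
      omega
    have he2 : e ≠ 1 := by
      rintro rfl
      omega
    have : 2 ≤ e := by omega
    nlinarith
  have hcast : ((l + 1 : ℕ) : ℤ) + (j : ℤ) = (m : ℤ) := by
    rw [hm]
    push_cast
    ring
  rw [hcast]
  refine hlm.dvd_of_dvd_mul_left ?_
  -- split the sum
  have h2 : (Icc 1 Q) = (Icc 1 (Q - s)) ∪ (Ico (Q - s + 1) (Q + 1)) := by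
    ext q
    rw [mem_union, mem_Icc, mem_Icc, mem_Ico]
    omega
  have hdisj : Disjoint (Icc 1 (Q - s)) (Ico (Q - s + 1) (Q + 1)) := by
    rw [disjoint_left]
    intro q hq
    rw [mem_Icc] at hq
    rw [mem_Ico]
    omega
  rw [h2, sum_union hdisj] at h1
  have h3 : (l : ℤ) ^ s ∣ ∑ q ∈ Icc 1 (Q - s), c q * (m : ℤ) ^ q * (l : ℤ) ^ (Q - q) := by
    refine dvd_sum fun q hq => ?_
    rw [mem_Icc] at hq
    exact dvd_mul_of_dvd_right (pow_dvd_pow _ (by omega)) _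
  have h4 := (dvd_add_right h3).1 ((pow_dvd_pow _ hsQ).trans h1)
  have h5 : (m : ℤ) ^ (Q - s + 1) * ∑ i ∈ range s, c (Q - s + 1 + i) * (l : ℤ) ^ (s - 1 - i) * (m : ℤ) ^ i =
      ∑ q ∈ Ico (Q - s + 1) (Q + 1), c q * (m : ℤ) ^ q * (l : ℤ) ^ (Q - q) := by
    rw [Finset.sum_Ico_eq_sum_range, mul_sum]
    have h6 : Q + 1 - (Q - s + 1) = s := by omega
    rw [h6]
    refine sum_congr rfl fun i hi => ?_
    rw [mem_range] at hi
    have h7 : Q - (Q - s + 1 + i) = s - 1 - i := by omega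
    rw [h7, pow_add (m : ℤ) (Q - s + 1)]
    ring
  rw [h5]
  exact h4

lemma last_dvd {l Q s : ℕ} (hl : l.Prime) (hs : s < l) (hs1 : 1 ≤ s) (hsQ : s ≤ Q) {c : ℕ → ℤ}
    (h0 : ∀ m, l < m → m < 2 * l → A Q c 0 m = 0) : (l : ℤ) ^ s ∣ c Q := by
  have h1 := top_dvd hl hs hsQ h0 (s - 1) (by omega)
  have h2 : Q - s + 1 + (s - 1) = Q := by omega
  have h3 : s - 1 - (s - 1) = 0 := by omega
  rwa [h2, h3, pow_zero, mul_one] at h1

lemma A_mul (Q : ℕ) (c c' : ℕ → ℤ) (l : ℤ) (h : ∀ q ∈ Icc 1 Q, c q = l * c' q) (m : ℕ) :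
    A Q c 0 m = l * A Q c' 0 m := by
  unfold A
  rw [Int.cast_zero, add_zero, add_zero, mul_sum]
  refine sum_congr rfl fun q hq => ?_
  rw [h q hq]
  push_cast
  ring

/-- if `Q < l`, then all coefficients vanish -/
lemma all_zero {l Q : ℕ} (hl : l.Prime) (hQ : Q < l) {c : ℕ → ℤ}
    (h0 : ∀ m, l < m → m < 2 * l → A Q c 0 m = 0) : ∀ q ∈ Icc 1 Q, c q = 0 := by
  have key : ∀ (n : ℕ) (c : ℕ → ℤ), (∀ m, l < m → m < 2 * l → A Q c 0 m = 0) →
      ∀ q ∈ Icc 1 Q, (l : ℤ) ^ n ∣ c q := by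
    intro n
    induction n with
    | zero =>
      intro c _ q _
      simp
    | succ n ih =>
      intro c hc q hq
      have h1 : ∀ q ∈ Icc 1 Q, ∃ w : ℤ, c q = l * w := by
        intro q hq
        rw [mem_Icc] at hq
        have h2 := top_dvd hl hQ le_rfl hc (q - 1) (by omega)
        have h3 : Q - Q + 1 + (q - 1) = q := by omega
        rw [h3] at h2
        have h4 : (l : ℤ) ^ Q = (l : ℤ) ^ (Q - 1 - (q - 1)) * (l : ℤ) ^ q := by
          rw [← pow_add]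
          congr 1
          omega
        rw [h4, mul_comm (c q)] at h2
        have h5 : (l : ℤ) ^ q ∣ c q :=
          (mul_dvd_mul_iff_left (pow_ne_zero _ (by exact_mod_cast hl.ne_zero))).1 h2
        exact (dvd_pow_self (l : ℤ) (by omega)).trans h5
      choose! w hw using h1
      have h2 : ∀ m, l < m → m < 2 * l → A Q w 0 m = 0 := by
        intro m hm1 hm2
        have h3 := hc m hm1 hm2
        rw [A_mul Q c w l hw m] at h3
        rcases mul_eq_zero.1 h3 with h4 | h4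
        · exfalso
          have : (l : ℤ) = 0 := by exact_mod_cast h4
          have : l = 0 := by exact_mod_cast this
          exact hl.ne_zero this
        · exact h4
      rw [hw q hq, pow_succ']
      exact mul_dvd_mul_left _ (ih w h2 q hq)
  intro q hq
  have h1 := key (c q).natAbs c h0 q hq
  refine Int.eq_zero_of_abs_lt_dvd h1 ?_
  have h2 : (c q).natAbs < l ^ (c q).natAbs := Nat.lt_pow_self hl.one_lt
  have h3 : ((c q).natAbs : ℤ) < (l : ℤ) ^ (c q).natAbs := by exact_mod_cast h2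
  rwa [Int.natCast_natAbs] at h3

end Pool.Agent.NH24.SQ
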